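import Mathlib

set_option autoImplicit false

namespace Pool.Agent.Results.MP_6117a1_gt.Counter

open NNReal

universe u

def IsMetric {Y : Type u} (ρ : Y → Y → ℝ≥0) : Prop :=
  (∀ x y, ρ x y = 0 ↔ x = y) ∧ (∀ x y, ρ x y = ρ y x) ∧ ∀ x y z, ρ x z ≤ ρ x y + ρ y z

def Pres (𝒳 : ∀ Y : Type u, (Y → Y → ℝ≥0) → Prop) : Set (ℝ≥0 → ℝ≥0) :=
  {f | ∀ Y ρ, 𝒳 Y ρ → 𝒳 Y fun x y => f (ρ x y)}

theorem result : ∃ A : Set (ℝ≥0 → ℝ≥0), (∀ f ∈ A, f ⁻¹' {0} = {0}) ∧ id ∈ A ∧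
    (∀ f ∈ A, ∀ g ∈ A, f ∘ g ∈ A) ∧ ∀ 𝒳 : ∀ Y : Type u, (Y → Y → ℝ≥0) → Prop,
      (∀ Y ρ, 𝒳 Y ρ → Nonempty Y ∧ IsMetric ρ) → Pres 𝒳 ≠ A := by
  refine ⟨{f | f.Injective ∧ f 0 = 0}, fun f h => Set.ext fun x => h.1.eq_iff' h.2,
    ⟨fun _ _ h => h, rfl⟩, fun f h g h' => ⟨h.1.comp h'.1, by simp [h.2, h'.2]⟩, fun 𝒳 h e => ?_⟩
  have sw {a b : ℝ≥0} (ha : a ≠ 0) (hb : b ≠ 0) : ⇑(Equiv.swap a b) ∈ Pres 𝒳 :=
    e ▸ ⟨Equiv.injective _, Equiv.swap_apply_of_ne_of_ne ha.symm hb.symm⟩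
  suffices (fun t => if t = 0 then 0 else 1) ∈ Pres 𝒳 by
    exact absurd ((e ▸ this : _ ∈ {f : ℝ≥0 → ℝ≥0 | f.Injective ∧ f 0 = 0}).1 (a₁ := 1) (a₂ := 2)
      (by simp)) (by simp)
  intro Y ρ h1
  obtain ⟨-, h2, h3, -⟩ := h Y ρ h1
  have k (x y z : Y) (h4 : x ≠ z) : ρ x z = ρ x y ∨ ρ x z = ρ y z := by
    by_contra! h5
    have h6 : ρ x y + ρ y z + 1 ≠ 0 := by positivity
    have := (h Y _ (sw (mt (h2 x z).1 h4) h6 Y ρ h1)).2.2.2 x y z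
    beta_reduce at this
    rw [Equiv.swap_apply_left, Equiv.swap_apply_of_ne_of_ne h5.1.symm
      ((le_self_add.trans_lt (lt_add_one _)).ne), Equiv.swap_apply_of_ne_of_ne h5.2.symm
      ((le_add_self.trans_lt (lt_add_one _)).ne)] at this
    exact (lt_add_one _).not_ge this
  have k' (x y z : Y) (h4 : x ≠ y) (h5 : x ≠ z) : ρ x y = ρ x z := by
    obtain h6 | h6 := k x y z h5
    · exact h6.symm
    · exact (k x z y h4).elim id fun h7 => h7.trans ((h3 _ _).trans h6.symm)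
  by_cases h4 : ∃ a b : Y, a ≠ b
  · obtain ⟨a, b, h4⟩ := h4
    convert sw (mt (h2 a b).1 h4) one_ne_zero Y ρ h1 using 3 with x y
    beta_reduce
    split_ifs with h5
    · rw [h5, Equiv.swap_apply_of_ne_of_ne (Ne.symm (mt (h2 a b).1 h4)) one_ne_zero.symm]
    have h6 : x ≠ y := mt (h2 x y).2 h5
    rw [show ρ x y = ρ a b from ?_, Equiv.swap_apply_left]
    by_cases h7 : x = a
    · exact h7 ▸ k' x y b h6 (h7 ▸ h4)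
    · exact (k' x y a h6 h7).trans ((h3 _ _).trans (k' a x b (Ne.symm h7) h4))
  · convert h1 using 3 with x y
    simp [(h2 x y).2 (by_contra fun h => h4 ⟨x, y, h⟩)]

end Pool.Agent.Results.MP_6117a1_gt.Counter
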